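import Pool.Agent.W2helper64.RI.Cle
import Pool.Agent.N694.BR.Abs

/-!
Bohr sets (helper64): `Pool.Agent.N694.BR.bohr` with thresholds which do not depend on the set of the good
vectors, and the theorem on boxes, for the iterates of `x ↦ (b x + c) / a`.
-/

set_option autoImplicit false

namespace Pool.Agent.W2helper64.RI

open Finset Filter Topology
open Pool.Agent.N646.AC
open Pool.Agent.N646.BX

open Classical in
theorem bohrU (k s : ℕ) (ε : ℝ) (hε : 0 < ε) : ∃ (d : ℕ) (ρ δ ε' : ℝ), 0 < ρ ∧ 0 < δ ∧ 0 < ε' ∧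
    ∀ M₀ n₀ : ℕ, 1 ≤ M₀ → ∃ n₁ : ℕ, ∀ g : (Fin k → ℤ) → Prop, CLu k M₀ n₀ g (5 / 18) ε' →
      ∀ N : ℕ, 1 ≤ N → M₀ ∣ N →
      ∀ H : ℕ, n₁ ≤ H → ∃ (Θ : Finset ℝ) (r : ℝ), Θ.card ≤ d ∧ ρ ≤ r ∧ r ≤ 1 ∧
      δ * H ≤ (Bz Θ r H).card ∧ ∃ 𝒢 ⊆ Fintype.piFinset (fun _ : Fin k => Bz Θ r H),
        (((Fintype.piFinset (fun _ : Fin k => Bz Θ r H)) \ 𝒢).card : ℝ) ≤
          ε * ((Bz Θ r H).card : ℝ) ^ k ∧
        ∀ y ∈ 𝒢, ∀ T : Matrix (Fin k) (Fin k) ℤ, (∀ i j, |T i j| ≤ s) → T.det ≠ 0 →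
          Function.Injective (nv (T.mulVec y)) ∧ g (fun i => N * (T.mulVec y) i) := by
  obtain ⟨d, H₀, ρ, δ, ε₀, hρ, hδ, hε₀, hret⟩ := returnsZ k s (1 / 5) (by norm_num) ε hε
  refine ⟨d, ρ, δ, min ε₀ (1 / 100), hρ, hδ, by positivity, ?_⟩
  intro M₀ n₀ hM₀
  refine ⟨max (max H₀ n₀) 1, fun g hcl N hN hMN H hH => ?_⟩
  have hHH₀ : H₀ ≤ H := (le_max_left _ _).trans ((le_max_left _ _).trans hH)
  have hHn₀ : n₀ ≤ H := (le_max_right _ _).trans ((le_max_left _ _).trans hH)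
  have hH1 : 1 ≤ H := (le_max_right _ _).trans hH
  have hHr : (0 : ℝ) < H := by exact_mod_cast hH1
  have hNZ : (N : ℤ) ≠ 0 := by exact_mod_cast (by omega : N ≠ 0)
  have hinj : Function.Injective (fun x : ℤ => (N : ℤ) * x) := mul_right_injective₀ hNZ
  set V : Finset ℤ := (Ico 0 (H : ℤ)).image (fun x => (N : ℤ) * x) with hV
  have hVc : V.card = H := by
    rw [hV, card_image_of_injective _ hinj, Int.card_Ico]
    omega
  obtain ⟨A₀, hA₀V, hA₀c, hA₀e⟩ := hcl V (by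
    intro x hx
    obtain ⟨y, _, rfl⟩ := mem_image.1 hx
    exact Dvd.dvd.mul_right (Int.natCast_dvd_natCast.2 hMN) y) (by rw [hVc]; exact hHn₀)
  set A : Finset ℤ := (Ico 0 (H : ℤ)).filter (fun x => (N : ℤ) * x ∈ A₀) with hA
  have hAA : A.image (fun x => (N : ℤ) * x) = A₀ := by
    ext f
    rw [mem_image]
    constructor
    · rintro ⟨x, hx, rfl⟩
      exact (mem_filter.1 hx).2
    · intro hf
      obtain ⟨x, hx, rfl⟩ := mem_image.1 (hA₀V hf)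
      exact ⟨x, mem_filter.2 ⟨hx, hf⟩, rfl⟩
  have hAc : A.card = A₀.card := by
    rw [← hAA, card_image_of_injective _ hinj]
  have hmin : min ε₀ (1 / 100) ≤ 1 / 100 := min_le_right _ _
  obtain ⟨Θ, r, h1, h2, h3, h4, h5⟩ := hret H hHH₀ A (filter_subset _ _) (by
    rw [hAc]
    refine le_trans ?_ hA₀c
    rw [hVc]
    nlinarith)
  have h6 := h5 (fun t => g (fun j => N * t j.succ)) (by
    have h7 : ((Fintype.piFinset (fun _ : Fin (k + 1) => A)).filter (fun t => Function.Injective t ∧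
        ¬ (fun t : Fin (k + 1) → ℤ => g (fun j => N * t j.succ)) (fun i => t i - t 0))).card ≤
        Set.ncard {y : Fin (k + 1) → ℤ | (∀ i, y i ∈ A₀) ∧ Function.Injective y ∧
          ¬ g (fun j => y j.succ - y 0)} := by
      have hfin : {y : Fin (k + 1) → ℤ | (∀ i, y i ∈ A₀) ∧ Function.Injective y ∧
          ¬ g (fun j => y j.succ - y 0)}.Finite := by
        apply (Fintype.piFinset (fun _ : Fin (k + 1) => A₀)).finite_toSet.subset
        intro y hy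
        rw [mem_coe, Fintype.mem_piFinset]
        exact hy.1
      rw [← Set.ncard_coe_finset]
      refine Set.ncard_le_ncard_of_injOn (fun t => fun i => (N : ℤ) * t i) ?_ ?_ hfin
      · intro t ht
        rw [mem_coe, mem_filter, Fintype.mem_piFinset] at ht
        obtain ⟨g1, g2, g3⟩ := ht
        refine ⟨fun i => (mem_filter.1 (g1 i)).2, hinj.comp g2, fun hg => g3 ?_⟩
        have e : (fun j : Fin k => (N : ℤ) * (t j.succ - t 0)) =
            fun j : Fin k => (N : ℤ) * t j.succ - (N : ℤ) * t 0 := by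
          funext j; ring
        show g (fun j => (N : ℤ) * (t j.succ - t 0))
        rw [e]
        exact hg
      · intro t _ t' _ h
        funext i
        exact hinj (congrFun h i)
    calc _ ≤ (Set.ncard {y : Fin (k + 1) → ℤ | (∀ i, y i ∈ A₀) ∧ Function.Injective y ∧
          ¬ g (fun j => y j.succ - y 0)} : ℝ) := by exact_mod_cast h7
      _ ≤ min ε₀ (1 / 100) * (V.card : ℝ) ^ (k + 1) := hA₀e
      _ ≤ ε₀ * (H : ℝ) ^ (k + 1) := by
          rw [hVc]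
          have := min_le_left ε₀ (1 / 100)
          gcongr)
  refine ⟨Θ, r, h1, h2, h3, h4, (Fintype.piFinset (fun _ : Fin k => Bz Θ r H)).filter (fun y =>
        ∀ T ∈ Mats k s, T.det ≠ 0 → Function.Injective (nv (T.mulVec y)) ∧
          g (fun j => N * nv (T.mulVec y) j.succ)), filter_subset _ _, ?_, ?_⟩
  · refine le_trans ?_ h6
    rw [Nat.cast_le]
    apply card_le_card
    intro y hy
    rw [Finset.mem_sdiff, mem_filter] at hy
    rw [mem_filter]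
    exact ⟨hy.1, fun hc => hy.2 ⟨hy.1, hc⟩⟩
  · intro y hy T hT hdet
    have h8 := (mem_filter.1 hy).2 T (mem_Mats.2 hT) hdet
    refine ⟨h8.1, ?_⟩
    have h9 := h8.2
    have e : (fun j : Fin k => (N : ℤ) * nv (T.mulVec y) j.succ) = fun i => (N : ℤ) * (T.mulVec y) i := by
      funext j
      unfold nv
      rw [Fin.cons_succ]
    rw [e] at h9
    exact h9



/-- the times `h_i - min h`, where `h_0 = 0` -/
def times {k : ℕ} (h : Fin k → ℤ) (i : Fin (k + 1)) : ℕ :=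
  ((Fin.cons 0 h : Fin (k + 1) → ℤ) i -
    univ.inf' ⟨0, mem_univ 0⟩ (Fin.cons 0 h : Fin (k + 1) → ℤ)).toNat

theorem goodTimes {a b c : ℤ} (hok : Ok a b c) {k C : ℕ} {h : Fin k → ℤ} (hg : GoodZ a b c k C h) :
    GoodD a b c (C + 1) (times h) := by
  classical
  set h' : Fin (k + 1) → ℤ := Fin.cons 0 h with hh'
  set μ : ℤ := univ.inf' ⟨0, mem_univ 0⟩ h' with hμ
  have h1 : ∀ i, ((times h i : ℕ) : ℤ) = h' i - μ := by
    intro i
    unfold times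
    apply Int.toNat_of_nonneg
    have : μ ≤ h' i := inf'_le _ (mem_univ i)
    linarith
  obtain ⟨i₀, -, hi₀⟩ := exists_mem_eq_inf' ⟨0, mem_univ 0⟩ h'
  have h00 : h' 0 = 0 := by rw [hh', Fin.cons_zero]
  refine goodD hok hg (times h) ⟨i₀, ?_⟩ (fun i => ?_)
  · have h3 := h1 i₀
    have h4 : h' i₀ = μ := hi₀.symm
    rw [h4, sub_self] at h3
    exact_mod_cast h3
  · rw [h1, h1, h00]
    ring

/-- the theorem on boxes -/
theorem box (k : ℕ) (hk : 1 ≤ k) (ε : ℝ) (hε : 0 < ε) : ∃ C : ℕ, ∀ a b c : ℤ, Ok a b c →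
    ∃ M : ℕ, 1 ≤ M ∧ ∀ N : ℕ, 1 ≤ N → M ∣ N → ∃ L : ℕ, ∀ T : ℕ, L ≤ T → ∀ v : Fin k → ℤ,
      (∀ j, (M : ℤ) ∣ v j) → ((k + 1) * (5 / 18 : ℝ) ^ k - ε) * (T : ℝ) ^ k ≤
        (({t : Fin k → ℕ | (∀ j, t j < T) ∧
          GoodD a b c C (times (fun j => v j + N * (t j : ℤ)))}).ncard : ℝ) := by
  classical
  obtain ⟨ε', hε', h⟩ := box_main k hk (5 / 18) (by norm_num) (by norm_num) ε hε
  obtain ⟨C, M₀, n₀, hM₀, hC⟩ := cleR k ε' hε'
  refine ⟨C + 1, fun a b c hok => ?_⟩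
  obtain ⟨M, hM, h1⟩ := h _ ⟨M₀, n₀, hM₀, hC a b c hok⟩
  refine ⟨M, hM, fun N hN hMN => ?_⟩
  obtain ⟨L, h2⟩ := h1 N hN hMN
  refine ⟨L, fun T hT v hv => (h2 T hT v hv).trans ?_⟩
  unfold Pool.Agent.N646.BX.cnt
  rw [Nat.cast_le, ← Set.ncard_coe_finset]
  refine Set.ncard_le_ncard_of_injOn (fun t : Fin k → ℤ => fun j => (t j).toNat) ?_ ?_ ?_
  · intro t ht
    rw [mem_coe, mem_filter, Fintype.mem_piFinset] at ht
    obtain ⟨h3, h4⟩ := ht
    refine ⟨fun j => ?_, ?_⟩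
    · have := mem_Ico.1 (h3 j)
      show (t j).toNat < T
      omega
    · apply goodTimes hok
      have h5 : (fun j => v j + N * (((t j).toNat : ℕ) : ℤ)) = fun j => v j + N * t j := by
        funext j
        have := mem_Ico.1 (h3 j)
        rw [Int.toNat_of_nonneg this.1]
      show GoodZ a b c k C (fun j => v j + N * (((t j).toNat : ℕ) : ℤ))
      rw [h5]
      exact h4
  · intro t ht t' ht' htt
    rw [mem_coe, mem_filter, Fintype.mem_piFinset] at ht ht'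
    funext j
    have h1 := mem_Ico.1 (ht.1 j)
    have h2 := mem_Ico.1 (ht'.1 j)
    have h3 : (t j).toNat = (t' j).toNat := congrFun htt j
    omega
  · apply (Fintype.piFinset (fun _ : Fin k => range T)).finite_toSet.subset
    intro t ht
    rw [mem_coe, Fintype.mem_piFinset]
    exact fun j => mem_range.2 (ht.1 j)

open Classical in
/-- the theorem on Bohr sets -/
theorem bohrR (k s : ℕ) (ε : ℝ) (hε : 0 < ε) : ∃ (d C M n₁ : ℕ) (ρ δ : ℝ), 1 ≤ M ∧ 0 < ρ ∧ 0 < δ ∧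
    ∀ a b c : ℤ, Ok a b c → ∀ N : ℕ, 1 ≤ N → M ∣ N → ∀ H : ℕ, n₁ ≤ H →
      ∃ (Θ : Finset ℝ) (r : ℝ), Θ.card ≤ d ∧ ρ ≤ r ∧ r ≤ 1 ∧
      δ * H ≤ (Bz Θ r H).card ∧ ∃ 𝒢 ⊆ Fintype.piFinset (fun _ : Fin k => Bz Θ r H),
        (((Fintype.piFinset (fun _ : Fin k => Bz Θ r H)) \ 𝒢).card : ℝ) ≤
          ε * ((Bz Θ r H).card : ℝ) ^ k ∧
        ∀ y ∈ 𝒢, ∀ T : Matrix (Fin k) (Fin k) ℤ, (∀ i j, |T i j| ≤ s) → T.det ≠ 0 →
          GoodD a b c C (times (fun i => N * (T.mulVec y) i)) := by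
  obtain ⟨d, ρ, δ, ε', hρ, hδ, hε', h⟩ := bohrU k s ε hε
  obtain ⟨C, M₀, n₀, hM₀, hC⟩ := cleR k ε' hε'
  obtain ⟨n₁, h1⟩ := h M₀ n₀ hM₀
  refine ⟨d, C + 1, M₀, n₁, ρ, δ, hM₀, hρ, hδ, fun a b c hok N hN hMN H hH => ?_⟩
  obtain ⟨Θ, r, g1, g2, g3, g4, 𝒢, g5, g6, g7⟩ := h1 _ (hC a b c hok) N hN hMN H hH
  exact ⟨Θ, r, g1, g2, g3, g4, 𝒢, g5, g6, fun y hy T hT hdet => goodTimes hok (g7 y hy T hT hdet).2⟩

end Pool.Agent.W2helper64.RI
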