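import Pool.Agent.N694.OB.Cle
import Pool.Agent.W25.IT.Rat

/-!
Iterates of the rational map `x ↦ (b x + c) / a` (helper64): the almost cliques of times.
The argument is that of `Pool.Agent.N694.OB.cleO` (integral maps), which follows
`Pool.Agent.N646.BX.Pri` (translations).
-/

set_option autoImplicit false

namespace Pool.Agent.W2helper64.RI

open Finset Filter Topology
open Pool.Agent.N646.AC
open Pool.Agent.N646.BX
open Pool.Agent.Y827.GS
open Pool.Agent.Y827.RO
open Pool.Agent.Y827.HD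
open Pool.Agent.W25.IT.Rat
open Pool.Agent.N694.OB (growthA)

/-- the form `i ↦ a ^ (W - i) b ^ i n + β i` -/
def fr (a b : ℤ) (β : ℕ → ℤ) (W i : ℕ) : ℤ × ℤ := (a ^ (W - i) * b ^ i, β i)

theorem fr_val (a b : ℤ) (β : ℕ → ℤ) (W i : ℕ) (n : ℤ) :
    (fr a b β W i).1 * n + (fr a b β W i).2 = LL a b β W i n := rfl

/-- the times `e + h` -/
def tm (e : ℕ) {k : ℕ} (h : Fin k → ℤ) (i : Fin (k + 1)) : ℕ :=
  ((e : ℤ) + (Fin.cons 0 h : Fin (k + 1) → ℤ) i).toNat

/-- good differences of times -/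
def GoodZ (a b c : ℤ) (k C : ℕ) (h : Fin k → ℤ) : Prop :=
  ∃ (W : ℕ) (β : ℕ → ℤ) (e : ℕ), (∀ i < W, a * β (i + 1) = b * β i + c) ∧
    (∀ i, 1 ≤ (e : ℤ) + (Fin.cons 0 h : Fin (k + 1) → ℤ) i) ∧ (∀ i, tm e h i < W) ∧
    ∃ᶠ N : ℕ in atTop, ∀ J : Finset (Fin (k + 1)), (N : ℝ) / (Real.log N) ^ C ≤
      (pat (fun i => fr a b β W (tm e h i)) J N : ℝ)

/-- the hypotheses of the question -/
def Ok (a b c : ℤ) : Prop :=
  1 ≤ a ∧ 1 ≤ b ∧ c ≠ 0 ∧ IsCoprime a b ∧ IsCoprime a c ∧ IsCoprime b c ∧ ¬ (Odd a ∧ Odd b ∧ Odd c)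

/-- the almost cliques, with explicit constants -/
def CLu (k M₀ n₀ : ℕ) (g : (Fin k → ℤ) → Prop) (ρ ε : ℝ) : Prop :=
  ∀ V : Finset ℤ, (∀ x ∈ V, (M₀ : ℤ) ∣ x) → n₀ ≤ V.card → ∃ A ⊆ V,
    (ρ - ε) * (V.card : ℝ) ≤ A.card ∧
    (Set.ncard {y : Fin (k + 1) → ℤ | (∀ i, y i ∈ A) ∧ Function.Injective y ∧
      ¬ g (fun j => y j.succ - y 0)} : ℝ) ≤ ε * (V.card : ℝ) ^ (k + 1)

theorem cleR (k : ℕ) (ε : ℝ) (hε : 0 < ε) : ∃ C M₀ n₀ : ℕ, 1 ≤ M₀ ∧ ∀ a b c : ℤ, Ok a b c →
    CLu k M₀ n₀ (GoodZ a b c k C) (5 / 18) ε := by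
  classical
  set e : ℝ := min (ε / 2) (1 / 18) with he
  have he0 : 0 < e := lt_min (by linarith) (by norm_num)
  have he1 : e ≤ ε / 2 := min_le_left _ _
  have he2 : e ≤ 1 / 18 := min_le_right _ _
  obtain ⟨z, n₀, C, m, hm, h, -⟩ := covF k e he0
  refine ⟨C, z.factorial, n₀, Nat.factorial_pos _, fun a b c ⟨ha, hb, hc, hab, hac, hbc, hpar⟩ => ?_⟩
  intro V hV hn
  set M₀ : ℕ := z.factorial with hM₀
  have hM₀1 : 1 ≤ M₀ := Nat.factorial_pos _
  set B : ℕ := ∑ x ∈ V, x.natAbs with hB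
  have hBx : ∀ x ∈ V, x.natAbs ≤ B := fun x hx => single_le_sum (f := fun x : ℤ => x.natAbs)
    (fun _ _ => Nat.zero_le _) hx
  set s : ℤ := (M₀ : ℤ) * (B + 1) with hs
  have hpos : ∀ x ∈ V, 1 ≤ x + s ∧ x + s ≤ B + s := by
    intro x hx
    have h1 := hBx x hx
    have h2 : (x.natAbs : ℤ) ≤ B := by exact_mod_cast h1
    have h3 : (1 : ℤ) ≤ (M₀ : ℤ) := by exact_mod_cast hM₀1
    have h4 : (1 : ℤ) + B ≤ s := by
      rw [hs]
      nlinarith [Int.natCast_nonneg B]
    have h5 : -(x.natAbs : ℤ) ≤ x := by omega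
    have h6 : x ≤ (x.natAbs : ℤ) := by omega
    constructor <;> linarith
  set τ : ℤ → ℕ := fun x => (x + s).toNat with hτ
  have hτx : ∀ x ∈ V, ((τ x : ℕ) : ℤ) = x + s := fun x hx =>
    Int.toNat_of_nonneg (zero_le_one.trans (hpos x hx).1)
  have hτM : ∀ x ∈ V, M₀ ∣ τ x := by
    intro x hx
    have h4 : (M₀ : ℤ) ∣ x + s := dvd_add (hV x hx) (dvd_mul_right _ _)
    rw [← hτx x hx] at h4
    exact Int.natCast_dvd_natCast.1 h4
  set W : ℕ := (B + s).toNat + 1 with hW
  have hτW : ∀ x ∈ V, 1 ≤ τ x ∧ τ x < W := by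
    intro x hx
    have h1 := hpos x hx
    have h2 := hτx x hx
    omega
  obtain ⟨β, hβ⟩ := exists_beta a b c (by omega) hab W
  set F : ℤ → ℤ × ℤ := fun x => fr a b β W (τ x) with hF
  have hinj : Set.InjOn F (V : Set ℤ) := by
    intro x hx y hy hxy
    have h0 := Prod.mk.inj hxy
    have h1 : τ x = τ y := forms_inj ha hb hc hab hβ (hτW x hx).2.le (hτW y hy).2.le h0.1 h0.2
    have h2 := hτx x hx
    have h3 := hτx y hy
    rw [h1] at h2
    linarith
  set V' : Finset (ℤ × ℤ) := V.image F with hV'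
  have hVc : V'.card = V.card := card_image_of_injOn hinj
  obtain ⟨U, G, h1, h2, h3⟩ := h V' (by
    intro f hf
    obtain ⟨x, hx, rfl⟩ := mem_image.1 hf
    refine ⟨by show (0 : ℤ) < a ^ (W - τ x) * b ^ τ x; positivity, ?_⟩
    apply Pool.Agent.H355R2.MT.isCoprime_of_forall_prime
    rintro p hp ⟨h1, h2⟩
    have hpp := Nat.prime_iff_prime_int.1 hp
    refine forms_cop hac hbc hβ (hτW x hx).1 (hτW x hx).2 hp ?_ h2
    rcases hpp.dvd_or_dvd h1 with h3 | h3
    · exact Dvd.dvd.mul_right (hpp.dvd_of_dvd_pow h3) _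
    · exact Dvd.dvd.mul_left (hpp.dvd_of_dvd_pow h3) _) (by
    intro p hpz hp
    obtain ⟨n, hn⟩ := rat_admissible (ι := {x // x ∈ V}) hab hac hbc hpar hβ (fun x => τ x)
      (fun x => hτW x x.2) hp (by
        intro hp3 hp1 hpc
        refine rat_miss hβ (fun x : {x // x ∈ V} => τ x) (fun x => (hτW x x.2).2.le) hp
          (bad_not_dvd hab hp hp1).1 hp1 hpc 1 (fun x hmod => ?_)
        have h4 : p ∣ τ x := (Nat.dvd_factorial hp.pos hpz).trans (hτM x x.2)
        have h5 : p ∣ 1 := (hmod.dvd_iff dvd_rfl).1 h4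
        exact hp.one_lt.ne' (Nat.dvd_one.1 h5))
    refine ⟨n, fun f hf hd => ?_⟩
    obtain ⟨x, hx, rfl⟩ := mem_image.1 hf
    exact hn ⟨x, hx⟩ hd) (by
    rw [hVc]; exact hn)
  have h4 := sum_rare V' U (fun j => (h1 j).1) (5 / 18 - e) e (by linarith) h2
  have hmR : (0 : ℝ) < m := by exact_mod_cast hm
  obtain ⟨j, hj⟩ : ∃ j, (5 / 18 - ε) * (V.card : ℝ) ≤ ((U j).card : ℝ) := by
    by_contra hno
    push Not at hno
    have hne : (univ : Finset (Fin m)).Nonempty := ⟨⟨0, hm⟩, mem_univ _⟩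
    have h5 : ∑ j, ((U j).card : ℝ) < ∑ _j : Fin m, (5 / 18 - ε) * (V.card : ℝ) :=
      sum_lt_sum_of_nonempty hne fun j _ => hno j
    rw [sum_const, card_univ, Fintype.card_fin, nsmul_eq_mul] at h5
    rw [hVc] at h4
    have h6 : (5 / 18 - ε) * (V.card : ℝ) ≤ (5 / 18 - e) * ((1 - e) * V.card) := by
      have : (0 : ℝ) ≤ V.card := Nat.cast_nonneg _
      have h7 : (5 : ℝ) / 18 - ε ≤ (5 / 18 - e) * (1 - e) := by nlinarith
      calc (5 / 18 - ε) * (V.card : ℝ) ≤ ((5 / 18 - e) * (1 - e)) * V.card :=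
            mul_le_mul_of_nonneg_right h7 this
        _ = _ := by ring
    have h8 := mul_le_mul_of_nonneg_left h6 hmR.le
    have h9 : (5 / 18 - e) * m * ((1 - e) * V.card) = m * ((5 / 18 - e) * ((1 - e) * V.card)) := by
      ring
    linarith
  set A : Finset ℤ := V.filter (fun x => F x ∈ U j) with hA
  have hAV : A ⊆ V := filter_subset _ _
  have hAU : A.image F = U j := by
    ext f
    constructor
    · intro hf
      obtain ⟨x, hx, rfl⟩ := mem_image.1 hf
      exact (mem_filter.1 hx).2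
    · intro hf
      obtain ⟨x, hx, rfl⟩ := mem_image.1 ((h1 j).1 hf)
      exact mem_image.2 ⟨x, mem_filter.2 ⟨hx, hf⟩, rfl⟩
  have hAc : A.card = (U j).card := by
    rw [← hAU]
    exact (card_image_of_injOn (hinj.mono (by exact_mod_cast hAV))).symm
  refine ⟨A, hAV, ?_, ?_⟩
  · rw [hAc]
    exact hj
  · have h5 : Set.ncard {y : Fin (k + 1) → ℤ | (∀ i, y i ∈ A) ∧
        Function.Injective y ∧ ¬ GoodZ a b c k C (fun j => y j.succ - y 0)} ≤
        (exc (U j) (fun f => f ∈ G)).card := by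
      rw [← Set.ncard_coe_finset]
      refine Set.ncard_le_ncard_of_injOn (fun y i => F (y i)) ?_ ?_ (Set.toFinite _)
      · rintro y ⟨hy1, hy2, hy3⟩
        rw [mem_coe, mem_exc]
        refine ⟨fun i => (mem_filter.1 (hy1 i)).2, fun i i' hii => hy2 (hinj (hAV (hy1 i))
          (hAV (hy1 i')) hii), fun hG => hy3 ?_⟩
        have hy0 : y 0 ∈ V := hAV (hy1 0)
        have hti : ∀ i, (((τ (y 0)) : ℕ) : ℤ) +
            (Fin.cons 0 (fun j : Fin k => y j.succ - y 0) : Fin (k + 1) → ℤ) i = y i + s := by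
          intro i
          rw [hτx _ hy0]
          rcases Fin.eq_zero_or_eq_succ i with h0 | ⟨j', hj'⟩
          · subst h0
            rw [Fin.cons_zero]
            ring
          · subst hj'
            rw [Fin.cons_succ]
            ring
        have htm : ∀ i, tm (τ (y 0)) (fun j : Fin k => y j.succ - y 0) i = τ (y i) := by
          intro i
          unfold tm
          rw [hti i]
        refine ⟨W, β, τ (y 0), hβ, fun i => ?_, fun i => ?_, ?_⟩
        · rw [hti i]
          exact (hpos _ (hAV (hy1 i))).1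
        · rw [htm i]
          exact (hτW _ (hAV (hy1 i))).2
        · have h7 : (fun i => fr a b β W (tm (τ (y 0)) (fun j : Fin k => y j.succ - y 0) i)) =
              fun i => F (y i) := by
            funext i
            rw [htm i]
          rw [h7]
          exact h3.mono fun N hN J => hN _ hG J
      · intro y hy y' hy' hyy
        funext i
        exact hinj (hAV (hy.1 i)) (hAV (hy'.1 i)) (congrFun hyy i)
    calc (Set.ncard {y : Fin (k + 1) → ℤ | (∀ i, y i ∈ A) ∧
        Function.Injective y ∧ ¬ GoodZ a b c k C (fun j => y j.succ - y 0)} : ℝ) ≤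
        ((exc (U j) (fun f => f ∈ G)).card : ℝ) := by exact_mod_cast h5
      _ ≤ e * ((U j).card : ℝ) ^ (k + 1) := (h1 j).2
      _ ≤ ε * (V.card : ℝ) ^ (k + 1) := by
          have h6 : ((U j).card : ℝ) ≤ V.card := by
            rw [← hVc]; exact_mod_cast card_le_card (h1 j).1
          exact mul_le_mul (by linarith) (pow_le_pow_left₀ (Nat.cast_nonneg _) h6 _)
            (by positivity) hε.le

/-- `m` goes to a prime under the `t`-th iterate -/
def Prm (a b c : ℤ) (t : ℕ) (m : ℕ) : Prop :=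
  ∃ p : ℕ, p.Prime ∧ a ^ t * p - b ^ t * m = c * ∑ i ∈ range t, a ^ i * b ^ (t - 1 - i)

open Classical in
/-- the number of the `m ≤ x` which go to a prime exactly at the times `D i` with `i ∈ J` -/
noncomputable def prq (a b c : ℤ) {k : ℕ} (D : Fin (k + 1) → ℕ) (J : Finset (Fin (k + 1))) (x : ℕ) : ℕ :=
  ((Icc 1 x).filter (fun m : ℕ => ∀ i, Prm a b c (D i) m ↔ i ∈ J)).card

/-- many starting values for all patterns -/
def GoodD (a b c : ℤ) {k : ℕ} (C : ℕ) (D : Fin (k + 1) → ℕ) : Prop :=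
  ∃ᶠ x : ℕ in atTop, ∀ J : Finset (Fin (k + 1)), (x : ℝ) / (Real.log x) ^ C ≤ (prq a b c D J x : ℝ)

/-- the transfer: from good differences of times to times with least element `0` -/
theorem goodD {a b c : ℤ} (hok : Ok a b c) {k C : ℕ} {h : Fin k → ℤ} (hg : GoodZ a b c k C h)
    (D : Fin (k + 1) → ℕ) (hD0 : ∃ i, D i = 0)
    (hD : ∀ i, (D i : ℤ) = D 0 + (Fin.cons 0 h : Fin (k + 1) → ℤ) i) : GoodD a b c (C + 1) D := by
  classical
  obtain ⟨ha, hb, hc, hab, hac, hbc, hpar⟩ := hok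
  obtain ⟨W, β, e₀, hβ, hpos₀, hlt, hfr⟩ := hg
  obtain ⟨i₀, hi₀⟩ := hD0
  have hle : 1 + D 0 ≤ e₀ := by
    have h1 := hpos₀ i₀
    have h2 := hD i₀
    rw [hi₀] at h2
    push_cast at h2
    omega
  obtain ⟨e, he⟩ : ∃ e : ℕ, e₀ = e + D 0 := ⟨e₀ - D 0, by omega⟩
  have hti : ∀ i, tm e₀ h i = e + D i := by
    intro i
    have h2 := hD i
    unfold tm
    rw [he]
    push_cast
    omega
  have hlt' : ∀ i, e + D i < W := fun i => by rw [← hti i]; exact hlt i
  have hfe : (fun i => fr a b β W (tm e₀ h i)) = fun i => fr a b β W (e + D i) := by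
    funext i
    rw [hti i]
  rw [hfe] at hfr
  have ha0 : 0 < a := by omega
  have hb0 : 0 < b := by omega
  set g : ℤ := β e with hg
  set B : ℕ := ∑ i ∈ range (W + 1), (β i).natAbs + 1 with hB
  have hBβ : ∀ i ≤ W, (β i).natAbs + 1 ≤ B := fun i hi => by
    have h1 : (β i).natAbs ≤ ∑ i ∈ range (W + 1), (β i).natAbs :=
      single_le_sum (f := fun i => (β i).natAbs) (fun _ _ => Nat.zero_le _) (mem_range.2 (by omega))
    omega
  set P : ℕ := (a ^ (W - e) * b ^ e).toNat with hP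
  have hPz : ((P : ℕ) : ℤ) = a ^ (W - e) * b ^ e := Int.toNat_of_nonneg (by positivity)
  have hP1 : 1 ≤ P := by
    have : (0 : ℤ) < ((P : ℕ) : ℤ) := by rw [hPz]; positivity
    omega
  have htend : Tendsto (fun N : ℕ => P * N + B) atTop atTop := by
    refine tendsto_atTop_mono (fun N => ?_) tendsto_id
    show N ≤ P * N + B
    nlinarith
  refine htend.frequently ((hfr.and_eventually (growthA P B C)).mono ?_)
  rintro N ⟨hN, hgr⟩ J
  refine hgr.trans ?_
  have h2 := hN J
  -- positivity of the values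
  have hval : ∀ i ≤ W, ∀ n : ℕ, B + 1 ≤ n → 1 ≤ LL a b β W i n := by
    intro i hi n hn
    unfold LL
    have h3 : (1 : ℤ) ≤ a ^ (W - i) * b ^ i := by
      have : (0 : ℤ) < a ^ (W - i) * b ^ i := by positivity
      omega
    have h4 : ((n : ℕ) : ℤ) ≤ a ^ (W - i) * b ^ i * n := by
      have : (0 : ℤ) ≤ n := by positivity
      nlinarith
    have h5 := hBβ i hi
    have h6 : -((β i).natAbs : ℤ) ≤ β i := by omega
    omega
  have h3 : pat (fun i => fr a b β W (e + D i)) J N ≤ prq a b c D J (P * N + B) + B := by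
    unfold pat prq
    have h4 : (Icc 1 N).filter (fun n : ℕ => ∀ i, ((fr a b β W (e + D i)).1 * (n : ℤ) +
        (fr a b β W (e + D i)).2).toNat.Prime ↔ i ∈ J) ⊆ (Icc 1 B) ∪ ((Icc (B + 1) N).filter
          (fun n : ℕ => ∀ i, ((fr a b β W (e + D i)).1 * (n : ℤ) +
        (fr a b β W (e + D i)).2).toNat.Prime ↔ i ∈ J)) := by
      intro n hn
      rw [mem_filter, mem_Icc] at hn
      rw [mem_union, mem_Icc, mem_filter, mem_Icc]
      by_cases hnB : n ≤ B
      · exact Or.inl ⟨hn.1.1, hnB⟩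
      · exact Or.inr ⟨⟨by omega, hn.1.2⟩, hn.2⟩
    have h5 : ((Icc (B + 1) N).filter (fun n : ℕ => ∀ i, ((fr a b β W (e + D i)).1 * (n : ℤ) +
        (fr a b β W (e + D i)).2).toNat.Prime ↔ i ∈ J)).card ≤
        ((Icc 1 (P * N + B)).filter (fun m : ℕ => ∀ i, Prm a b c (D i) m ↔ i ∈ J)).card := by
      apply card_le_card_of_injOn (fun n : ℕ => (LL a b β W e n).toNat)
      · intro n hn
        rw [mem_coe, mem_filter, mem_Icc] at hn
        rw [mem_coe, mem_filter, mem_Icc]
        obtain ⟨⟨hn1, hn2⟩, hn3⟩ := hn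
        have heW : e ≤ W := by have := hlt' 0; omega
        have hv := hval e heW n hn1
        have h7 : (((LL a b β W e n).toNat : ℕ) : ℤ) = LL a b β W e n :=
          Int.toNat_of_nonneg (by omega)
        refine ⟨⟨by show 1 ≤ (LL a b β W e n).toNat; omega, ?_⟩, fun i => ?_⟩
        · show (LL a b β W e n).toNat ≤ P * N + B
          have h8 : LL a b β W e n ≤ ((P * N + B : ℕ) : ℤ) := by
            unfold LL
            rw [← hPz]
            push_cast
            have h9 : (P : ℤ) * n ≤ P * N := by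
              apply mul_le_mul_of_nonneg_left _ (by positivity)
              exact_mod_cast hn2
            have h10 := hBβ e heW
            omega
          omega
        · rw [← hn3 i, fr_val]
          have hiter := LL_iter hβ (n : ℤ) e (D i) (hlt' i).le
          have hv2 := hval (e + D i) (hlt' i).le n hn1
          have h8 : (((LL a b β W (e + D i) n).toNat : ℕ) : ℤ) = LL a b β W (e + D i) n :=
            Int.toNat_of_nonneg (by omega)
          have haD : (a ^ (D i) : ℤ) ≠ 0 := by positivity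
          unfold Prm
          rw [h7]
          constructor
          · rintro ⟨p, hp, hpe⟩
            have h9 : a ^ D i * (p : ℤ) = a ^ D i * LL a b β W (e + D i) n := by
              rw [hiter]
              unfold cj
              linarith
            have h10 := mul_left_cancel₀ haD h9
            have h11 : p = (LL a b β W (e + D i) n).toNat := by omega
            rw [← h11]
            exact hp
          · intro hp
            refine ⟨_, hp, ?_⟩
            rw [h8, hiter]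
            unfold cj
            ring
      · intro n hn n' hn' hnn
        rw [mem_coe, mem_filter, mem_Icc] at hn hn'
        have heW : e ≤ W := by have := hlt' 0; omega
        have h6 : (LL a b β W e n).toNat = (LL a b β W e n').toNat := hnn
        have h8 := hval e heW n hn.1.1
        have h9 := hval e heW n' hn'.1.1
        have h10 : LL a b β W e n = LL a b β W e n' := by omega
        unfold LL at h10
        have h11 : a ^ (W - e) * b ^ e * (n : ℤ) = a ^ (W - e) * b ^ e * (n' : ℤ) := by linarith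
        have h12 : (a ^ (W - e) * b ^ e : ℤ) ≠ 0 := by positivity
        exact_mod_cast mul_left_cancel₀ h12 h11
    have h6 := (card_le_card h4).trans (card_union_le _ _)
    rw [Nat.card_Icc] at h6
    have h7 : B + 1 - 1 = B := by omega
    rw [h7] at h6
    refine h6.trans ?_
    rw [add_comm]
    exact Nat.add_le_add_right h5 B
  have h3' : (pat (fun i => fr a b β W (e + D i)) J N : ℝ) ≤ (prq a b c D J (P * N + B) : ℝ) + B := by
    exact_mod_cast h3
  linarith

end Pool.Agent.W2helper64.RI
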